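import Pool.Agent.Run7.h955.FK.MV

set_option autoImplicit false

namespace Run7.h955.FK

open MeasureTheory Set Topology Pool.Agent.Run7.h350.FK
open scoped ENNReal NNReal

theorem enr {x : ℂ} {q : ℝ} (hq : 0 < q) : ‖x‖ₑ ^ q = ENNReal.ofReal (‖x‖ ^ q) := by
  rw [← ofReal_norm, ENNReal.ofReal_rpow_of_nonneg (norm_nonneg x) hq.le]

theorem ent_cont {n : ℕ} {g : CE n → ℂ} (hg : Ent g) : Continuous g := by
  rw [continuous_iff_continuousAt]
  intro z
  exact (hg z (mem_univ _)).continuousAt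

theorem case_ge (hMV : S_MV) (n : ℕ) (q : ℝ) (hq : 1 ≤ q) (g : CE n → ℂ) (hg : Ent g)
    (a : CE n) (r : ℝ) (hr : 0 < r) :
    ‖g a‖ₑ ^ q * volume (Metric.ball a r) ≤
      ENNReal.ofReal (2 ^ q) * ∫⁻ z in Metric.ball a r, ‖g z‖ₑ ^ q := by
  have hq0 : 0 < q := by linarith
  by_cases h0 : g a = 0
  · simp [h0, hq0]
  have hG : 0 < ‖g a‖ := norm_pos_iff.2 h0
  set G := ‖g a‖ / 2 with hGd
  have hG2 : 0 < G := by positivity
  set V := volume (Metric.ball a r)
  have hV : V ≠ ∞ := measure_ball_lt_top.ne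
  set I := ∫⁻ z in Metric.ball a r, ‖g z‖ₑ ^ q with hI
  have hpt : ∀ x : ℝ, 0 ≤ x → x ≤ G + G ^ (1 - q) * x ^ q := by
    intro x hx
    rcases le_or_gt x G with h | h
    · have : 0 ≤ G ^ (1 - q) * x ^ q := by positivity
      linarith
    · have h1 : x = x ^ (1 - q) * x ^ q := by
        rw [← Real.rpow_add (hG2.trans h)]; simp
      have h2 : x ^ (1 - q) ≤ G ^ (1 - q) :=
        Real.rpow_le_rpow_of_nonpos hG2 h.le (by linarith)
      have h3 : x ^ (1 - q) * x ^ q ≤ G ^ (1 - q) * x ^ q :=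
        mul_le_mul_of_nonneg_right h2 (by positivity)
      linarith
  have hmv := hMV n g hg a r hr
  have h1 : ∫⁻ z in Metric.ball a r, ‖g z‖ₑ ≤
      ENNReal.ofReal G * V + ENNReal.ofReal (G ^ (1 - q)) * I := by
    calc ∫⁻ z in Metric.ball a r, ‖g z‖ₑ
        ≤ ∫⁻ z in Metric.ball a r, (ENNReal.ofReal G + ENNReal.ofReal (G ^ (1 - q)) * ‖g z‖ₑ ^ q) := by
          apply lintegral_mono
          intro z
          show ‖g z‖ₑ ≤ ENNReal.ofReal G + ENNReal.ofReal (G ^ (1 - q)) * ‖g z‖ₑ ^ q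
          rw [enr hq0, ← ofReal_norm, ← ENNReal.ofReal_mul (by positivity),
            ← ENNReal.ofReal_add hG2.le (by positivity)]
          exact ENNReal.ofReal_le_ofReal (hpt _ (norm_nonneg _))
      _ = ENNReal.ofReal G * V + ENNReal.ofReal (G ^ (1 - q)) * I := by
          rw [lintegral_add_left measurable_const, setLIntegral_const, lintegral_const_mul']
          exact ENNReal.ofReal_ne_top
  have h2 : ‖g a‖ₑ * V = ENNReal.ofReal G * V + ENNReal.ofReal G * V := by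
    rw [← add_mul, ← ENNReal.ofReal_add hG2.le hG2.le, ← ofReal_norm]
    congr 2
    rw [hGd]; ring
  have h3 : ENNReal.ofReal G * V ≤ ENNReal.ofReal (G ^ (1 - q)) * I := by
    have h4 : ENNReal.ofReal G * V ≠ ∞ := ENNReal.mul_ne_top ENNReal.ofReal_ne_top hV
    have h5 := hmv.trans h1
    rw [h2] at h5
    exact (ENNReal.add_le_add_iff_left h4).1 h5
  have h6 : ENNReal.ofReal (G ^ q) * V ≤ I := by
    calc ENNReal.ofReal (G ^ q) * V = ENNReal.ofReal (G ^ (q - 1)) * (ENNReal.ofReal G * V) := by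
          rw [← mul_assoc, ← ENNReal.ofReal_mul (by positivity)]
          congr 2
          rw [Real.rpow_sub_one hG2.ne']
          field_simp
      _ ≤ ENNReal.ofReal (G ^ (q - 1)) * (ENNReal.ofReal (G ^ (1 - q)) * I) := by gcongr
      _ = I := by
          rw [← mul_assoc, ← ENNReal.ofReal_mul (by positivity), ← Real.rpow_add hG2]
          simp
  calc ‖g a‖ₑ ^ q * V = ENNReal.ofReal (2 ^ q) * (ENNReal.ofReal (G ^ q) * V) := by
        rw [enr hq0, ← mul_assoc, ← ENNReal.ofReal_mul (by positivity),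
          ← Real.mul_rpow (by norm_num) hG2.le]
        congr 3
        rw [hGd]; ring
    _ ≤ ENNReal.ofReal (2 ^ q) * I := by gcongr

theorem case_lt (hMV : S_MV) (n : ℕ) (q : ℝ) (hq0 : 0 < q) (hq : q < 1) (g : CE n → ℂ) (hg : Ent g)
    (a : CE n) (r : ℝ) (hr : 0 < r) :
    ‖g a‖ₑ ^ q * volume (Metric.ball a r) ≤
      ENNReal.ofReal (2 ^ Module.finrank ℝ (CE n) *
        (2 ^ ((Module.finrank ℝ (CE n) : ℝ) / q)) ^ (1 - q)) *
          ∫⁻ z in Metric.ball a r, ‖g z‖ₑ ^ q := by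
  set D := Module.finrank ℝ (CE n) with hD
  by_cases h0 : g a = 0
  · simp [h0, hq0]
  have hgc := ent_cont hg
  set I := ∫⁻ z in Metric.ball a r, ‖g z‖ₑ ^ q with hI
  let Φ : CE n → ℝ := fun z => (r - ‖z - a‖) ^ D * ‖g z‖ ^ q
  have hΦc : Continuous Φ := by
    have h1 : Continuous fun z : CE n => ‖g z‖ ^ q :=
      hgc.norm.rpow_const (fun x => Or.inr hq0.le)
    have h2 : Continuous fun z : CE n => (r - ‖z - a‖) ^ D := by fun_prop
    exact h2.mul h1
  obtain ⟨z₀, hz₀, hmax⟩ := (isCompact_closedBall a r).exists_isMaxOn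
    ⟨a, Metric.mem_closedBall_self hr.le⟩ hΦc.continuousOn
  have hmax' : ∀ z ∈ Metric.closedBall a r, Φ z ≤ Φ z₀ := hmax
  have hG0 : 0 < ‖g a‖ := norm_pos_iff.2 h0
  have hΦa : Φ a = r ^ D * ‖g a‖ ^ q := by simp [Φ]
  have hΦa0 : 0 < Φ a := by rw [hΦa]; positivity
  have hpos : 0 < Φ z₀ := hΦa0.trans_le (hmax' a (Metric.mem_closedBall_self hr.le))
  have hz₀' : ‖z₀ - a‖ ≤ r := by rw [← dist_eq_norm]; exact hz₀
  set G := ‖g z₀‖ with hGd
  have hG : 0 < G := by
    rcases (norm_nonneg (g z₀)).lt_or_eq with h | h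
    · exact h
    · exfalso
      have : Φ z₀ = 0 := by
        show (r - ‖z₀ - a‖) ^ D * ‖g z₀‖ ^ q = 0
        rw [← h, Real.zero_rpow hq0.ne', mul_zero]
      linarith
  -- the case in which the distance of `z₀` to the boundary is zero
  rcases hz₀'.lt_or_eq with hlt | heq
  swap
  · -- then `D = 0`
    have hD0 : D = 0 := by
      by_contra hne
      have : Φ z₀ = 0 := by
        show (r - ‖z₀ - a‖) ^ D * ‖g z₀‖ ^ q = 0
        rw [heq, sub_self, zero_pow hne, zero_mul]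
      linarith
    exfalso
    have hss : Subsingleton (CE n) := Module.finrank_zero_iff (R := ℝ).1 (hD ▸ hD0)
    have : z₀ - a = 0 := Subsingleton.elim _ _
    rw [this, norm_zero] at heq
    linarith
  set t := (r - ‖z₀ - a‖) / 2 with ht
  have ht0 : 0 < t := by rw [ht]; linarith
  have hsub : Metric.ball z₀ t ⊆ Metric.ball a r := by
    intro z hz
    rw [Metric.mem_ball, dist_eq_norm] at hz ⊢
    have : ‖z - a‖ ≤ ‖z - z₀‖ + ‖z₀ - a‖ := norm_sub_le_norm_sub_add_norm_sub z z₀ a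
    have h2 : ‖z₀ - a‖ = r - 2 * t := by rw [ht]; ring
    linarith
  set c : ℝ := 2 ^ ((D : ℝ) / q) with hc
  have hc0 : 0 < c := by positivity
  have hcq : c ^ q = 2 ^ D := by
    rw [hc, ← Real.rpow_mul (by norm_num), div_mul_cancel₀ _ hq0.ne', Real.rpow_natCast]
  have hb : ∀ z ∈ Metric.ball z₀ t, ‖g z‖ ≤ c * G := by
    intro z hz
    have hzr := hsub hz
    have h1 := hmax' z (Metric.ball_subset_closedBall hzr)
    rw [Metric.mem_ball, dist_eq_norm] at hz
    have h2 : ‖z - a‖ ≤ ‖z - z₀‖ + ‖z₀ - a‖ := norm_sub_le_norm_sub_add_norm_sub z z₀ a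
    have h3 : r - ‖z₀ - a‖ = 2 * t := by rw [ht]; ring
    have h4 : t ≤ r - ‖z - a‖ := by linarith
    have h5 : t ^ D * ‖g z‖ ^ q ≤ (2 * t) ^ D * G ^ q := by
      calc t ^ D * ‖g z‖ ^ q ≤ (r - ‖z - a‖) ^ D * ‖g z‖ ^ q := by gcongr
        _ ≤ (r - ‖z₀ - a‖) ^ D * ‖g z₀‖ ^ q := h1
        _ = (2 * t) ^ D * G ^ q := by rw [h3]
    rw [mul_pow] at h5
    have h6 : ‖g z‖ ^ q ≤ 2 ^ D * G ^ q := by
      have h7 : (0 : ℝ) < t ^ D := by positivity
      have : t ^ D * ‖g z‖ ^ q ≤ t ^ D * (2 ^ D * G ^ q) := by linarith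
      exact le_of_mul_le_mul_left this h7
    rw [← hcq, ← Real.mul_rpow hc0.le hG.le] at h6
    exact (Real.rpow_le_rpow_iff (norm_nonneg _) (by positivity) hq0).1 h6
  have hmv := hMV n g hg z₀ t ht0
  set W := volume (Metric.ball z₀ t) with hW
  have h1 : ∫⁻ z in Metric.ball z₀ t, ‖g z‖ₑ ≤ ENNReal.ofReal ((c * G) ^ (1 - q)) * I := by
    calc ∫⁻ z in Metric.ball z₀ t, ‖g z‖ₑ
        ≤ ∫⁻ z in Metric.ball z₀ t, ENNReal.ofReal ((c * G) ^ (1 - q)) * ‖g z‖ₑ ^ q := by
          apply setLIntegral_mono' measurableSet_ball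
          intro z hz
          rw [enr hq0, ← ofReal_norm, ← ENNReal.ofReal_mul (by positivity)]
          apply ENNReal.ofReal_le_ofReal
          rcases (norm_nonneg (g z)).lt_or_eq with h | h
          · calc ‖g z‖ = ‖g z‖ ^ (1 - q) * ‖g z‖ ^ q := by
                  rw [← Real.rpow_add h]; simp
              _ ≤ (c * G) ^ (1 - q) * ‖g z‖ ^ q := by
                  gcongr
                  exact hb z hz
          · rw [← h, Real.zero_rpow hq0.ne', mul_zero]
      _ = ENNReal.ofReal ((c * G) ^ (1 - q)) * ∫⁻ z in Metric.ball z₀ t, ‖g z‖ₑ ^ q := by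
          rw [lintegral_const_mul']
          exact ENNReal.ofReal_ne_top
      _ ≤ ENNReal.ofReal ((c * G) ^ (1 - q)) * I := by
          gcongr
          exact lintegral_mono_set hsub
  have h2 : ENNReal.ofReal (G ^ q) * W ≤ ENNReal.ofReal (c ^ (1 - q)) * I := by
    calc ENNReal.ofReal (G ^ q) * W = ENNReal.ofReal (G ^ (q - 1)) * (‖g z₀‖ₑ * W) := by
          rw [← mul_assoc, ← ofReal_norm, ← ENNReal.ofReal_mul (by positivity)]
          congr 2
          rw [Real.rpow_sub_one hG.ne', ← hGd]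
          field_simp
      _ ≤ ENNReal.ofReal (G ^ (q - 1)) * (ENNReal.ofReal ((c * G) ^ (1 - q)) * I) :=
          mul_le_mul' le_rfl (hmv.trans h1)
      _ = ENNReal.ofReal (c ^ (1 - q)) * I := by
          rw [← mul_assoc, ← ENNReal.ofReal_mul (by positivity)]
          congr 2
          rw [Real.mul_rpow hc0.le hG.le]
          have : G ^ (q - 1) * G ^ (1 - q) = 1 := by
            rw [← Real.rpow_add hG]; simp
          calc G ^ (q - 1) * (c ^ (1 - q) * G ^ (1 - q))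
              = c ^ (1 - q) * (G ^ (q - 1) * G ^ (1 - q)) := by ring
            _ = c ^ (1 - q) := by rw [this, mul_one]
  have h3 : r ^ D * ‖g a‖ ^ q ≤ (2 * t) ^ D * G ^ q := by
    have h4 : r - ‖z₀ - a‖ = 2 * t := by rw [ht]; ring
    have h5 := hmax' a (Metric.mem_closedBall_self hr.le)
    rw [hΦa] at h5
    have h6 : Φ z₀ = (2 * t) ^ D * G ^ q := by
      show (r - ‖z₀ - a‖) ^ D * ‖g z₀‖ ^ q = _
      rw [h4]
    linarith
  have hvr : volume (Metric.ball a r) = ENNReal.ofReal (r ^ D) * volume (Metric.ball (0 : CE n) 1) :=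
    Measure.addHaar_ball_of_pos volume a hr
  have hvt : W = ENNReal.ofReal (t ^ D) * volume (Metric.ball (0 : CE n) 1) :=
    Measure.addHaar_ball_of_pos volume z₀ ht0
  set U := volume (Metric.ball (0 : CE n) 1)
  calc ‖g a‖ₑ ^ q * volume (Metric.ball a r)
      = ENNReal.ofReal (r ^ D * ‖g a‖ ^ q) * U := by
        rw [enr hq0, hvr, ← mul_assoc, ← ENNReal.ofReal_mul (by positivity), mul_comm (‖g a‖ ^ q)]
    _ ≤ ENNReal.ofReal ((2 * t) ^ D * G ^ q) * U := by
        gcongr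
    _ = ENNReal.ofReal (2 ^ D) * (ENNReal.ofReal (G ^ q) * W) := by
        rw [hvt, ← mul_assoc, ← mul_assoc, ← ENNReal.ofReal_mul (by positivity),
          ← ENNReal.ofReal_mul (by positivity)]
        congr 2
        rw [mul_pow]; ring
    _ ≤ ENNReal.ofReal (2 ^ D) * (ENNReal.ofReal (c ^ (1 - q)) * I) := by gcongr
    _ = ENNReal.ofReal (2 ^ D * c ^ (1 - q)) * I := by
        rw [← mul_assoc, ← ENNReal.ofReal_mul (by positivity)]

theorem t_MVQ : S_MV → S_MVQ := by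
  intro hMV n _ q hq
  rcases le_or_gt 1 q with h | h
  · refine ⟨Real.toNNReal (2 ^ q), fun g hg a r hr => ?_⟩
    exact case_ge hMV n q h g hg a r hr
  · refine ⟨Real.toNNReal (2 ^ Module.finrank ℝ (CE n) *
        (2 ^ ((Module.finrank ℝ (CE n) : ℝ) / q)) ^ (1 - q)), fun g hg a r hr => ?_⟩
    exact case_lt hMV n q hq h g hg a r hr

end Run7.h955.FK
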