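import Pool.Agent.Run7.h350.FK.Iface

set_option autoImplicit false

namespace Run7.h955.FK

open MeasureTheory Set Topology Pool.Agent.Run7.h350.FK
open scoped ENNReal NNReal

/-- multiplication by a number of modulus one -/
noncomputable def rotE {n : ℕ} (u : ℂ) (hu : ‖u‖ = 1) : CE n ≃ₗᵢ[ℝ] CE n where
  toFun y := u • y
  invFun y := u⁻¹ • y
  map_add' x y := smul_add u x y
  map_smul' c x := by
    simp only [RingHom.id_apply]
    exact smul_comm u c x
  left_inv y := by
    have h : u ≠ 0 := by rintro rfl; simp at hu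
    simp [smul_smul, inv_mul_cancel₀ h]
  right_inv y := by
    have h : u ≠ 0 := by rintro rfl; simp at hu
    simp [smul_smul, mul_inv_cancel₀ h]
  norm_map' y := by
    show ‖u • y‖ = ‖y‖
    rw [norm_smul, hu, one_mul]

theorem mp_aff {n : ℕ} (a : CE n) (u : ℂ) (hu : ‖u‖ = 1) :
    MeasurePreserving (fun y : CE n => a + u • y) volume volume := by
  have h1 : MeasurePreserving (fun y : CE n => u • y) volume volume :=
    LinearIsometryEquiv.measurePreserving (rotE u hu)
  have h2 : MeasurePreserving (fun y : CE n => a + y) volume volume := measurePreserving_add_left volume a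
  exact h2.comp h1

theorem pre_ball {n : ℕ} (a : CE n) (u : ℂ) (hu : ‖u‖ = 1) (r : ℝ) :
    (fun y : CE n => a + u • y) ⁻¹' (Metric.ball a r) = Metric.ball 0 r := by
  ext y
  simp [Metric.mem_ball, dist_eq_norm, norm_smul, hu]

theorem circ {n : ℕ} (g : CE n → ℂ) (hg : Ent g) (a y : CE n) :
    ENNReal.ofReal (2 * Real.pi) * ‖g a‖ₑ ≤
      ∫⁻ θ in Ioc (0 : ℝ) (2 * Real.pi), ‖g (a + circleMap 0 1 θ • y)‖ₑ := by
  have hd : Differentiable ℂ (fun l : ℂ => g (a + l • y)) := by
    intro l
    have hga : DifferentiableAt ℂ g (a + l • y) := (hg _ (mem_univ _)).differentiableAt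
    have h2 : DifferentiableAt ℂ (fun l : ℂ => a + l • y) l := by fun_prop
    exact hga.comp l h2
  have hc := DiffContOnCl.circleAverage (c := (0 : ℂ)) (R := 1) (f := fun l : ℂ => g (a + l • y))
    hd.diffContOnCl
  rw [Real.circleAverage_def] at hc
  have h2 : ∫ θ in (0 : ℝ)..(2 * Real.pi), g (a + circleMap 0 1 θ • y) = (2 * Real.pi : ℝ) • g a := by
    have h3 : (2 * Real.pi : ℝ) ≠ 0 := by positivity
    have h4 := congrArg (fun w => (2 * Real.pi : ℝ) • w) hc
    simp only [smul_smul, mul_inv_cancel₀ h3, one_smul, zero_smul, add_zero] at h4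
    exact h4
  have h5 : ‖(2 * Real.pi : ℝ) • g a‖ₑ = ENNReal.ofReal (2 * Real.pi) * ‖g a‖ₑ := by
    rw [enorm_smul, Real.enorm_of_nonneg (by positivity)]
  rw [← h5, ← h2, intervalIntegral.integral_of_le (by positivity)]
  exact enorm_integral_le_lintegral_enorm _

theorem t_MV : S_MV := by
  intro n g hg a r hr
  have hcont : Continuous g := by
    rw [continuous_iff_continuousAt]
    intro z
    exact (hg z (mem_univ _)).continuousAt
  have hpi : ENNReal.ofReal (2 * Real.pi) ≠ 0 := by
    simp [Real.pi_pos]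
  have hpi2 : ENNReal.ofReal (2 * Real.pi) ≠ ∞ := ENNReal.ofReal_ne_top
  have hvol : volume (Metric.ball a r) = volume (Metric.ball (0 : CE n) r) := by
    exact Measure.addHaar_ball_center volume a r
  have key : ENNReal.ofReal (2 * Real.pi) * (‖g a‖ₑ * volume (Metric.ball a r)) ≤
      ENNReal.ofReal (2 * Real.pi) * ∫⁻ z in Metric.ball a r, ‖g z‖ₑ := by
    calc ENNReal.ofReal (2 * Real.pi) * (‖g a‖ₑ * volume (Metric.ball a r))
        = ∫⁻ y in Metric.ball (0 : CE n) r, ENNReal.ofReal (2 * Real.pi) * ‖g a‖ₑ := by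
          rw [setLIntegral_const, hvol, mul_assoc]
      _ ≤ ∫⁻ y in Metric.ball (0 : CE n) r, ∫⁻ θ in Ioc (0 : ℝ) (2 * Real.pi),
            ‖g (a + circleMap 0 1 θ • y)‖ₑ := lintegral_mono fun y => circ g hg a y
      _ = ∫⁻ θ in Ioc (0 : ℝ) (2 * Real.pi), ∫⁻ y in Metric.ball (0 : CE n) r,
            ‖g (a + circleMap 0 1 θ • y)‖ₑ := by
          apply lintegral_lintegral_swap
          apply Measurable.aemeasurable
          apply Continuous.measurable
          have : Continuous (fun p : CE n × ℝ => g (a + circleMap 0 1 p.2 • p.1)) := by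
            apply hcont.comp
            have : Continuous (fun θ : ℝ => circleMap 0 1 θ) := continuous_circleMap 0 1
            fun_prop
          exact this.enorm
      _ = ∫⁻ θ in Ioc (0 : ℝ) (2 * Real.pi), ∫⁻ z in Metric.ball a r, ‖g z‖ₑ := by
          apply lintegral_congr
          intro θ
          have hu : ‖circleMap 0 1 θ‖ = 1 := by simp
          have h1 := (mp_aff a (circleMap 0 1 θ) hu).setLIntegral_comp_preimage
            (s := Metric.ball a r) (f := fun z => ‖g z‖ₑ) measurableSet_ball
            hcont.enorm.measurable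
          rw [pre_ball a _ hu r] at h1
          exact h1
      _ = ENNReal.ofReal (2 * Real.pi) * ∫⁻ z in Metric.ball a r, ‖g z‖ₑ := by
          rw [setLIntegral_const, Real.volume_Ioc, sub_zero, mul_comm]
  exact (ENNReal.mul_le_mul_iff_right hpi hpi2).1 key

end Run7.h955.FK
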